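import Mathlib

/-! The second moment of `ψ(x;H) - H` over `1 ≤ x ≤ X` and the short initial range `x ≤ H / 2`. -/

set_option autoImplicit false

open MeasureTheory Filter Topology

namespace Q276.SV

/-- The weighted number of prime powers in the interval of length `H` centred at `x`. -/
noncomputable def psi (x H : ℝ) : ℝ :=
  ∑ᶠ n ∈ {n : ℕ | 1 ≤ n ∧ x - H / 2 ≤ n ∧ (n : ℝ) ≤ x + H / 2}, ArithmeticFunction.vonMangoldt n

lemma psi_eq {x H : ℝ} {M : ℕ} (hM : x + H / 2 ≤ M) : psi x H =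
    ∑ n ∈ Finset.Icc 1 M, if x - H / 2 ≤ n ∧ (n : ℝ) ≤ x + H / 2
      then ArithmeticFunction.vonMangoldt n else 0 := by
  classical
  unfold psi
  have h1 : {n : ℕ | 1 ≤ n ∧ x - H / 2 ≤ n ∧ (n : ℝ) ≤ x + H / 2} =
      ↑((Finset.Icc 1 M).filter (fun n : ℕ => x - H / 2 ≤ n ∧ (n : ℝ) ≤ x + H / 2)) := by
    ext n
    simp only [Set.mem_ofPred_eq, Finset.coe_filter, Finset.mem_Icc]
    constructor
    · rintro ⟨h1, h2, h3⟩
      refine ⟨⟨h1, ?_⟩, h2, h3⟩
      exact_mod_cast h3.trans hM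
    · rintro ⟨⟨h1, -⟩, h2, h3⟩
      exact ⟨h1, h2, h3⟩
  rw [h1, finsum_mem_coe_finset, Finset.sum_filter]

lemma psi_small {x H : ℝ} (h0 : 0 ≤ x) (hx : x ≤ H / 2) : psi x H = Chebyshev.psi (x + H / 2) := by
  classical
  unfold psi Chebyshev.psi
  have h1 : {n : ℕ | 1 ≤ n ∧ x - H / 2 ≤ n ∧ (n : ℝ) ≤ x + H / 2} =
      ↑(Finset.Ioc 0 ⌊x + H / 2⌋₊) := by
    ext n
    simp only [Set.mem_ofPred_eq, Finset.coe_Ioc, Set.mem_Ioc]
    have h2 : n ≤ ⌊x + H / 2⌋₊ ↔ (n : ℝ) ≤ x + H / 2 := Nat.le_floor_iff (by linarith)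
    rw [h2]
    have h3 : (0 : ℝ) ≤ n := Nat.cast_nonneg n
    constructor
    · rintro ⟨h1, -, h3⟩; exact ⟨h1, h3⟩
    · rintro ⟨h1, h4⟩; exact ⟨h1, by linarith, h4⟩
  rw [h1, finsum_mem_coe_finset]

lemma measurable_psi {X H : ℝ} : ∃ F : ℝ → ℝ, Measurable F ∧ (∃ B : ℝ, ∀ x, |F x| ≤ B) ∧
    ∀ x, x ≤ X → psi x H = F x := by
  obtain ⟨M, hM⟩ := exists_nat_ge (X + H / 2)
  refine ⟨fun x => ∑ n ∈ Finset.Icc 1 M, if x - H / 2 ≤ n ∧ (n : ℝ) ≤ x + H / 2
      then ArithmeticFunction.vonMangoldt n else 0, ?_, ?_, ?_⟩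
  · refine Finset.measurable_sum _ fun n _ => ?_
    refine Measurable.ite ?_ measurable_const measurable_const
    refine MeasurableSet.inter ?_ ?_
    · exact measurableSet_le (measurable_id.sub_const _) measurable_const
    · exact measurableSet_le measurable_const (measurable_id.add_const _)
  · refine ⟨∑ n ∈ Finset.Icc 1 M, ArithmeticFunction.vonMangoldt n, fun x => ?_⟩
    refine (Finset.abs_sum_le_sum_abs _ _).trans (Finset.sum_le_sum fun n _ => ?_)
    split_ifs
    · rw [abs_of_nonneg ArithmeticFunction.vonMangoldt_nonneg]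
    · rw [abs_zero]; exact ArithmeticFunction.vonMangoldt_nonneg
  · intro x hx
    exact psi_eq (by linarith)

/-- The integrand is interval integrable. -/
lemma intble {X H a b : ℝ} (hab : a ≤ b) (hb : b ≤ X) :
    IntervalIntegrable (fun x => |psi x H - H| ^ 2) volume a b := by
  obtain ⟨F, hF, ⟨B, hB⟩, hFx⟩ := measurable_psi (X := X) (H := H)
  rw [intervalIntegrable_iff_integrableOn_Ioc_of_le hab]
  have h1 : IntegrableOn (fun x => |F x - H| ^ 2) (Set.Ioc a b) volume := by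
    refine Measure.integrableOn_of_bounded (M := (B + |H|) ^ 2) (by simp) ?_ ?_
    · exact ((hF.sub_const H).norm.pow_const 2).aestronglyMeasurable
    · refine Filter.Eventually.of_forall fun x => ?_
      rw [Real.norm_eq_abs, abs_of_nonneg (by positivity)]
      have h2 : |F x - H| ≤ B + |H| := by
        have := abs_sub (F x) H
        have := hB x
        linarith
      exact pow_le_pow_left₀ (abs_nonneg _) h2 2
  refine h1.congr_fun ?_ measurableSet_Ioc
  intro x hx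
  simp only [hFx x (hx.2.trans hb)]

/-- Chebyshev's bound, in the form used here. -/
lemma cheb : ∃ H₀ : ℝ, 16 ≤ H₀ ∧ ∀ H, H₀ ≤ H → Chebyshev.psi (5 / 8 * H) ≤ 9 / 10 * H := by
  have h1 : Tendsto (fun x : ℝ => Real.log x / x ^ (1 / 2 : ℝ)) atTop (𝓝 0) :=
    (isLittleO_log_rpow_atTop (by norm_num : (0 : ℝ) < 1 / 2)).tendsto_div_nhds_zero
  have h2 := h1.eventually_le_const (by norm_num : (0 : ℝ) < 1 / 100)
  obtain ⟨N, hN⟩ := (h2.and (eventually_ge_atTop 1)).exists_forall_of_atTop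
  refine ⟨max (16) (8 / 5 * N), le_max_left _ _, fun H hH => ?_⟩
  have hH1 : 16 ≤ H := (le_max_left _ _).trans hH
  have hH2 : N ≤ 5 / 8 * H := by
    have := (le_max_right _ _).trans hH
    linarith
  obtain ⟨h3, h4⟩ := hN (5 / 8 * H) hH2
  have h5 := Chebyshev.psi_le h4
  set y := 5 / 8 * H with hy
  have hy0 : 0 < y := by linarith
  rw [← Real.sqrt_eq_rpow, div_le_iff₀ (Real.sqrt_pos.2 hy0)] at h3
  have h6 : Real.log 4 < 1.3864 := by
    have : Real.log 4 = 2 * Real.log 2 := by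
      rw [show (4 : ℝ) = 2 ^ 2 by norm_num, Real.log_pow]; norm_num
    rw [this]
    have := Real.log_two_lt_d9
    linarith
  have h7 : 2 * √y * Real.log y ≤ 2 / 100 * y := by
    calc 2 * √y * Real.log y ≤ 2 * √y * (1 / 100 * √y) := by
          apply mul_le_mul_of_nonneg_left h3 (by positivity)
      _ = 2 / 100 * (√y * √y) := by ring
      _ = 2 / 100 * y := by rw [Real.mul_self_sqrt hy0.le]
  have h8 : Real.log 4 * y ≤ 1.3864 * y := by
    apply mul_le_mul_of_nonneg_right h6.le hy0.le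
  have h9 : 1.3864 * y + 2 / 100 * y ≤ 9 / 10 * H := by
    rw [hy]; nlinarith
  linarith

/-- The lower bound that comes from the range `x ≤ H / 8`. -/
theorem lower : ∃ H₀ : ℝ, 16 ≤ H₀ ∧ ∀ X H : ℝ, H₀ ≤ H → H ≤ X →
    H ^ 3 / 1600 ≤ ∫ x in (1 : ℝ)..X, |psi x H - H| ^ 2 := by
  obtain ⟨H₀, h16, hc⟩ := cheb
  refine ⟨H₀, h16, fun X H hH hHX => ?_⟩
  have hH0 : 16 ≤ H := h16.trans hH
  have h1 : ∫ x in (1 : ℝ)..(H / 8), |psi x H - H| ^ 2 ≤ ∫ x in (1 : ℝ)..X, |psi x H - H| ^ 2 := by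
    rw [← intervalIntegral.integral_add_adjacent_intervals (b := H / 8)
      (intble (X := X) (by linarith) (by linarith)) (intble (X := X) (by linarith) le_rfl)]
    have : 0 ≤ ∫ x in (H / 8)..X, |psi x H - H| ^ 2 :=
      intervalIntegral.integral_nonneg (by linarith) fun x _ => by positivity
    linarith
  refine le_trans ?_ h1
  have h2 : ∫ x in (1 : ℝ)..(H / 8), (H / 10) ^ 2 ≤ ∫ x in (1 : ℝ)..(H / 8), |psi x H - H| ^ 2 := by
    refine intervalIntegral.integral_mono_on (by linarith) intervalIntegrable_const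
      (intble (X := X) (by linarith) (by linarith)) fun x hx => ?_
    have h3 : psi x H ≤ 9 / 10 * H := by
      rw [psi_small (by linarith [hx.1]) (by linarith [hx.2])]
      refine le_trans (Chebyshev.psi_mono ?_) (hc H hH)
      linarith [hx.2]
    have h4 : H / 10 ≤ |psi x H - H| := by
      rw [abs_sub_comm]
      exact le_trans (by linarith) (le_abs_self _)
    exact pow_le_pow_left₀ (by linarith) h4 2
  refine le_trans ?_ h2
  rw [intervalIntegral.integral_const, smul_eq_mul]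
  nlinarith [sq_nonneg H, mul_nonneg (by linarith : (0 : ℝ) ≤ H - 16) (sq_nonneg H)]

end Q276.SV
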