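import Pool.Agent.Q276.SV.Base

/-! The ratio of the two sides tends to infinity. -/

set_option autoImplicit false

open MeasureTheory Filter Topology

namespace Q276.SV

/-- `X ^ (2 ε) / (1600 log X)` tends to infinity. -/
lemma tends (ε : ℝ) (hε : 0 < ε) :
    Tendsto (fun X : ℝ => X ^ (2 * ε) / (1600 * Real.log X)) atTop atTop := by
  have h1 : Tendsto (fun X : ℝ => Real.log X / X ^ (2 * ε)) atTop (𝓝 0) :=
    (isLittleO_log_rpow_atTop (by linarith)).tendsto_div_nhds_zero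
  have h2 : Tendsto (fun X : ℝ => (Real.log X / X ^ (2 * ε))⁻¹) atTop atTop := by
    apply Tendsto.inv_tendsto_nhdsGT_zero
    rw [tendsto_nhdsWithin_iff]
    refine ⟨h1, ?_⟩
    filter_upwards [eventually_gt_atTop 1] with X hX
    exact div_pos (Real.log_pos hX) (Real.rpow_pos_of_pos (by linarith) _)
  have h3 := h2.const_mul_atTop (by norm_num : (0 : ℝ) < 1 / 1600)
  refine h3.congr fun X => ?_
  rw [inv_div, mul_comm 1600 (Real.log X), div_mul_eq_div_div, one_div, mul_comm, div_eq_mul_inv]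
  ring

theorem ratio (ε : ℝ) (hε : 0 < ε) (H : ℝ → ℝ)
    (hH : ∀ᶠ X : ℝ in atTop, X ^ (1 / 2 + ε) ≤ H X ∧ H X ≤ X ^ (1 - ε)) :
    Tendsto (fun X : ℝ => ((1 / X) * ∫ x in (1 : ℝ)..X, |psi x (H X) - H X| ^ 2) /
      (H X * (Real.log X - Real.log (H X) - (Real.eulerMascheroniConstant +
        Real.log (2 * Real.pi))))) atTop atTop := by
  obtain ⟨H₀, h16, hlow⟩ := lower
  set c := Real.eulerMascheroniConstant + Real.log (2 * Real.pi) with hc
  have hc0 : 0 ≤ c := by
    have h1 := Real.one_half_lt_eulerMascheroniConstant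
    have h2 : 0 ≤ Real.log (2 * Real.pi) :=
      Real.log_nonneg (by have := Real.pi_gt_three; linarith)
    rw [hc]; linarith
  refine tendsto_atTop_mono' _ ?_ (tends ε hε)
  have e1 : ∀ᶠ X : ℝ in atTop, H₀ ≤ X ^ (1 / 2 + ε) :=
    (tendsto_rpow_atTop (by linarith)).eventually_ge_atTop H₀
  have e2 : ∀ᶠ X : ℝ in atTop, (c + 1) / ε ≤ Real.log X :=
    Real.tendsto_log_atTop.eventually_ge_atTop _
  filter_upwards [hH, e1, e2, eventually_gt_atTop 1] with X h1 h2 h3 h4
  obtain ⟨h5, h6⟩ := h1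
  have hX0 : 0 < X := by linarith
  have hL : 0 < Real.log X := Real.log_pos h4
  have hHH : H₀ ≤ H X := h2.trans h5
  have hH0 : 0 < H X := by linarith
  have hHX : H X ≤ X := by
    refine h6.trans ?_
    calc X ^ (1 - ε) ≤ X ^ (1 : ℝ) := Real.rpow_le_rpow_of_exponent_le h4.le (by linarith)
      _ = X := Real.rpow_one X
  have h7 := hlow X (H X) hHH hHX
  have h8 : Real.log (H X) ≤ (1 - ε) * Real.log X := by
    calc Real.log (H X) ≤ Real.log (X ^ (1 - ε)) := Real.log_le_log hH0 h6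
      _ = (1 - ε) * Real.log X := Real.log_rpow hX0 _
  have h9 : c + 1 ≤ ε * Real.log X := by
    rw [div_le_iff₀ hε] at h3; linarith
  have h10 : 0 ≤ Real.log (H X) := Real.log_nonneg (by linarith)
  have hden : 0 < H X * (Real.log X - Real.log (H X) - c) := by
    apply mul_pos hH0; nlinarith
  have hden2 : H X * (Real.log X - Real.log (H X) - c) ≤ H X * Real.log X := by
    apply mul_le_mul_of_nonneg_left _ hH0.le; linarith
  rw [div_le_div_iff₀ (by positivity) hden]
  have h11 : X ^ (2 * ε) * X ≤ H X ^ 2 := by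
    calc X ^ (2 * ε) * X = X ^ (2 * ε) * X ^ (1 : ℝ) := by rw [Real.rpow_one]
      _ = (X ^ (1 / 2 + ε)) ^ 2 := by
          rw [← Real.rpow_add hX0, ← Real.rpow_natCast, ← Real.rpow_mul hX0.le]
          congr 1; push_cast; ring
      _ ≤ H X ^ 2 := pow_le_pow_left₀ (by positivity) h5 2
  have h12 : 0 < X ^ (2 * ε) := Real.rpow_pos_of_pos hX0 _
  calc X ^ (2 * ε) * (H X * (Real.log X - Real.log (H X) - c))
      ≤ X ^ (2 * ε) * (H X * Real.log X) := by gcongr
    _ = (X ^ (2 * ε) * X) * H X * Real.log X / X := by field_simp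
    _ ≤ (H X ^ 2) * H X * Real.log X / X := by gcongr
    _ = (1 / X) * (H X ^ 3 / 1600) * (1600 * Real.log X) := by ring
    _ ≤ (1 / X) * (∫ x in (1 : ℝ)..X, |psi x (H X) - H X| ^ 2) * (1600 * Real.log X) := by
        gcongr

theorem exists_window : ∃ (ε : ℝ) (H : ℝ → ℝ), 0 < ε ∧
    (∀ X : ℝ, 1 < X → X ^ ε < H X ∧ H X < X ^ (1 - ε)) ∧
    Tendsto (fun X : ℝ => ((1 / X) * ∫ x in (1 : ℝ)..X, |psi x (H X) - H X| ^ 2) /
      (H X * (Real.log X - Real.log (H X) - (Real.eulerMascheroniConstant +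
        Real.log (2 * Real.pi))))) atTop atTop := by
  refine ⟨1 / 8, fun X => X ^ (3 / 4 : ℝ), by norm_num, fun X hX => ⟨?_, ?_⟩, ?_⟩
  · exact Real.rpow_lt_rpow_of_exponent_lt hX (by norm_num)
  · exact Real.rpow_lt_rpow_of_exponent_lt hX (by norm_num)
  · refine ratio (1 / 8) (by norm_num) _ ?_
    filter_upwards [eventually_gt_atTop 1] with X hX
    exact ⟨Real.rpow_le_rpow_of_exponent_le hX.le (by norm_num),
      Real.rpow_le_rpow_of_exponent_le hX.le (by norm_num)⟩

end Q276.SV
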